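import Pool.Agent.W659.SA.Final
import Pool.Agent.W659.SA.Ext

/-!
# Integral points over a split semiabelian variety

`G = E_1 × … × E_r × G_m^s`, closed subschemes `V` of `G × 𝔸ⁿ` and their covers `w_i² = F_i`.
-/

set_option autoImplicit false

namespace Pool.Agent.Y696.BL

open MvPolynomial NumberField IsDedekindDomain Pool.Agent.H901R3.MS Pool.Agent.W659 Pool.Agent.W659.SA

/-! ### The geometric condition -/

section geo

variable {K : Type} [Field K] (σ : K →+* ℂ) {r s n q m q' : ℕ} (a b : Fin r → ℤ)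

/-- Condition (i): every nonconstant entire curve in the complex variety of the points
`(P, u, x, w)`, `P ∈ E_1 × … × E_r`, `u ∈ (ℂ^*)^s`, `x ∈ ℂⁿ`, with `G_e(P, u; x) = 0` and
`w_i² = F_i(P, u; x)`, lies in the closed subset given by `G'_l(P, u; x) = 0`. -/
def EntireIn (G : Fin q → Pol (𝓞 K) r s n) (F : Fin m → Pol (𝓞 K) r s n)
    (G' : Fin q' → Pol (𝓞 K) r s n) : Prop :=
  ∀ (P : Fin r → Fin 3 → ℂ → ℂ) (u : Fin s → ℂ → ℂ) (x : Fin n → ℂ → ℂ) (w : Fin m → ℂ → ℂ),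
    (∀ i j, Differentiable ℂ (P i j)) → (∀ l, Differentiable ℂ (u l)) →
    (∀ k, Differentiable ℂ (x k)) → (∀ i, Differentiable ℂ (w i)) →
    (∀ z i, FD.OnE (a i) (b i) (fun j => P i j z)) → (∀ z l, u l z ≠ 0) →
    (∀ z e, vl (toC σ) (G e) (fun i j => P i j z) (fun l => u l z) (fun k => x k z) = 0) →
    (∀ z i, w i z ^ 2 =
      vl (toC σ) (F i) (fun i j => P i j z) (fun l => u l z) (fun k => x k z)) →
    (∃ z z', (∃ i, ¬ ∃ c : ℂ, ∀ j, P i j z = c * P i j z') ∨ (∃ l, u l z ≠ u l z') ∨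
      ∃ k, x k z ≠ x k z') →
    ∀ z l, vl (toC σ) (G' l) (fun i j => P i j z) (fun l => u l z) (fun k => x k z) = 0

variable {σ a b}

lemma diff_eval {n : ℕ} (g : MvPolynomial (Fin n) ℂ) {x : Fin n → ℂ → ℂ}
    (hx : ∀ k, Differentiable ℂ (x k)) : Differentiable ℂ (fun z => eval (fun k => x k z) g) := by
  have h3 : (fun z => eval (fun k => x k z) g) =
      fun z => ∑ e ∈ g.support, coeff e g * ∏ k, x k z ^ e k := by
    funext z
    rw [eval_eq']
  rw [h3]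
  refine Differentiable.fun_sum fun e _ => ?_
  refine Differentiable.const_mul ?_ _
  refine Differentiable.fun_finsetProd fun k _ => ?_
  exact (hx k).pow _

/-- condition (i) excludes fibres that contain a section -/
theorem cond {G : Fin q → Pol (𝓞 K) r s (n + 1)} {F : Fin m → Pol (𝓞 K) r s (n + 1)}
    {G' : Fin q' → Pol (𝓞 K) r s (n + 1)} (hE : EntireIn σ a b G F G')
    (hV' : ∀ (V : Fin r → Fin 3 → ℂ) (u : Fin s → ℂ), (∀ i, FD.OnE (a i) (b i) (V i)) →
      (∀ l, u l ≠ 0) → ∃ l, spc (toC σ) (G' l) V u ≠ 0)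
    (V : Fin r → Fin 3 → ℂ) (u : Fin s → ℂ) (hV : ∀ i, FD.OnE (a i) (b i) (V i))
    (hu : ∀ l, u l ≠ 0) : (∃ e, spc (toC σ) (G e) V u ≠ 0) ∨
      ∃ e, ∀ g : MvPolynomial (Fin (n + 1)) ℂ, spc (toC σ) (F e) V u ≠ g ^ 2 := by
  by_contra hcon
  push Not at hcon
  obtain ⟨h1, h2⟩ := hcon
  choose g hg using h2
  obtain ⟨l, hl⟩ := hV' V u hV hu
  obtain ⟨x₀, hx₀⟩ : ∃ x₀ : Fin (n + 1) → ℂ, eval x₀ (spc (toC σ) (G' l) V u) ≠ 0 := by
    by_contra h
    push Not at h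
    exact hl (MvPolynomial.funext fun x => by rw [h x, map_zero])
  let x : Fin (n + 1) → ℂ → ℂ := fun k z => x₀ k + if k = 0 then z else 0
  have hx : ∀ k, Differentiable ℂ (x k) := by
    intro k
    by_cases h0 : k = 0
    · have : x k = fun z => x₀ k + z := by
        funext z
        simp only [x]
        rw [if_pos h0]
      rw [this]
      exact (differentiable_const _).add differentiable_id
    · have : x k = fun _ => x₀ k := by
        funext z
        simp only [x]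
        rw [if_neg h0, add_zero]
      rw [this]
      exact differentiable_const _
  have h4 := hE (fun i j _ => V i j) (fun l _ => u l) x (fun i z => eval (fun k => x k z) (g i))
    (fun i j => differentiable_const _) (fun l => differentiable_const _) hx
    (fun i => diff_eval (g i) hx) (fun z i => hV i) (fun z l => hu l)
    (fun z e => by rw [vl_eq, h1 e, map_zero])
    (fun z i => by rw [vl_eq, hg i, map_pow])
    ⟨0, 1, Or.inr (Or.inr ⟨0, by simp [x]⟩)⟩ 0 l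
  rw [vl_eq] at h4
  apply hx₀
  have h5 : (fun k => x k 0) = x₀ := by
    funext k
    simp [x]
  rw [h5] at h4
  exact h4

end geo

/-! ### Integral points -/

section int

variable (K : Type) [Field K] {L : Type} [Field L] [NumberField L] [Algebra K L]

/-- There is an `S`-integral point of `V` above `x ∈ Lⁿ`: there are `P_i ∈ E_i(L)`, `S`-units `u_l`
and `w_i ∈ L` with `G_e(P, u; x) = 0` and `w_i² = F_i(P, u; x)`. -/
def IntAbove (S : Set (HeightOneSpectrum (𝓞 L))) {r s n q m : ℕ} (a b : Fin r → ℤ)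
    (G : Fin q → Pol (𝓞 K) r s n) (F : Fin m → Pol (𝓞 K) r s n) (x : Fin n → L) : Prop :=
  ∃ (V : Fin r → Fin 3 → L) (u : Fin s → Lˣ) (w : Fin m → L),
    (∀ i, FD.OnE (a i) (b i) (V i)) ∧ (∀ l, u l ∈ S.unit L) ∧
      (∀ e, vl (toL K L) (G e) V (fun l => ((u l : Lˣ) : L)) x = 0) ∧
      ∀ i, w i ^ 2 = vl (toL K L) (F i) V (fun l => ((u l : Lˣ) : L)) x

/-- the coefficient vectors (with respect to the basis `ω` of `𝓞 L`) of the `x ∈ (𝓞 L)ⁿ` in a box
such that for some `S`-units `z_k` there is an `S`-integral point of `V` above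
`(z_1 x_1, …, z_n x_n)` -/
def Below (S : Set (HeightOneSpectrum (𝓞 L))) {N : ℕ} (ω : Module.Basis (Fin N) ℤ (𝓞 L))
    {r s n q m : ℕ} (a b : Fin r → ℤ) (G : Fin q → Pol (𝓞 K) r s n)
    (F : Fin m → Pol (𝓞 K) r s n) (H : ℕ) : Set (Fin n × Fin N → ℤ) :=
  {c | (∀ i, |c i| ≤ H) ∧ ∃ z : Fin n → Lˣ, (∀ k, z k ∈ S.unit L) ∧
    IntAbove K S a b G F (fun k => ((z k : Lˣ) : L) * ((vec ω c k : 𝓞 L) : L))}

variable {K} [NumberField K]

lemma comp_toC {σ : K →+* ℂ} {σ' : L →+* ℂ} (h : σ'.comp (algebraMap K L) = σ) :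
    (toC σ').comp (algebraMap (𝓞 K) (𝓞 L)) = toC σ := by
  ext x
  have h2 : ((algebraMap (𝓞 K) (𝓞 L) x : 𝓞 L) : L) = algebraMap K L (x : K) := rfl
  show σ' ((algebraMap (𝓞 K) (𝓞 L) x : 𝓞 L) : L) = σ (x : K)
  rw [h2, ← h]
  rfl

lemma comp_toL : (algebraMap (𝓞 L) L).comp (algebraMap (𝓞 K) (𝓞 L)) = toL K L := by
  ext x
  rfl

omit [Algebra K L] [NumberField K] in
lemma below_finite {N : ℕ} {n : ℕ} {T : Set (Fin n × Fin N → ℤ)} {H : ℕ}
    (h : ∀ c ∈ T, ∀ i, |c i| ≤ H) : T.Finite := by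
  refine Set.Finite.subset (Box (Fin n × Fin N) H).finite_toSet ?_
  intro c hc
  rw [Finset.mem_coe]
  unfold Box
  rw [Fintype.mem_piFinset]
  intro s
  rw [Finset.mem_Icc]
  exact abs_le.1 (h c hc s)

/-- **Part 1.** -/
theorem part1 {r s n q m q' : ℕ} {a b : Fin r → ℤ}
    (hab : ∀ i, a i * b i = 0 ∧ (a i ≠ 0 ∨ b i ≠ 0))
    {G : Fin q → Pol (𝓞 K) r s (n + 1)} {d' : Fin q → Fin r → ℕ} (hG : ∀ e, MHomog (G e) (d' e))
    {F : Fin m → Pol (𝓞 K) r s (n + 1)} {d : Fin m → Fin r → ℕ} (hd : ∀ e i, Even (d e i))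
    (hF : ∀ e, MHomog (F e) (d e)) {G' : Fin q' → Pol (𝓞 K) r s (n + 1)} {σ : K →+* ℂ}
    (hE : EntireIn σ a b G F G')
    (hV' : ∀ (V : Fin r → Fin 3 → ℂ) (u : Fin s → ℂ), (∀ i, FD.OnE (a i) (b i) (V i)) →
      (∀ l, u l ≠ 0) → ∃ l, spc (toC σ) (G' l) V u ≠ 0)
    {S : Set (HeightOneSpectrum (𝓞 L))} (hS : S.Finite) {N : ℕ}
    (ω : Module.Basis (Fin N) ℤ (𝓞 L)) :
    ∃ c : ℝ, 0 < c ∧ ∃ H₀ : ℕ, ∀ H : ℕ, H₀ ≤ H →
    (((Below K S ω a b G F H).ncard : ℕ) : ℝ) ≤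
      (2 * (H : ℝ) + 1) ^ ((n + 1) * N) *
        Real.exp (-c * (Real.log H / Real.log (Real.log H))) := by
  obtain ⟨σ', hσ'⟩ := exists_ext (L := L) σ
  obtain ⟨c, hc, H₀, h⟩ := dcH L N ω r s n q m a b hab (S.unit L)
    (Pool.Agent.H39R3.Tor.sunit_fg L S hS)
    (fun e => MvPolynomial.map (algebraMap (𝓞 K) (𝓞 L)) (G e)) d' (fun e => (hG e).map _)
    (fun e => MvPolynomial.map (algebraMap (𝓞 K) (𝓞 L)) (F e)) d hd (fun e => (hF e).map _) σ' (by
      intro V u hV hu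
      rcases cond hE hV' V u hV hu with ⟨e, he⟩ | ⟨e, he⟩
      · left
        refine ⟨e, ?_⟩
        rw [spc_mapc, comp_toC hσ']
        exact he
      · right
        refine ⟨e, fun g => ?_⟩
        rw [spc_mapc, comp_toC hσ']
        exact he g)
  refine ⟨c, hc, H₀, fun H hH => le_trans ?_ (h H hH)⟩
  have hfin : (FibH ω a b (S.unit L) (fun e => MvPolynomial.map (algebraMap (𝓞 K) (𝓞 L)) (G e))
      (fun e => MvPolynomial.map (algebraMap (𝓞 K) (𝓞 L)) (F e)) H).Finite :=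
    below_finite (H := H) fun c hc => hc.1
  have hsub : Below K S ω a b G F H ⊆
      FibH ω a b (S.unit L) (fun e => MvPolynomial.map (algebraMap (𝓞 K) (𝓞 L)) (G e))
      (fun e => MvPolynomial.map (algebraMap (𝓞 K) (𝓞 L)) (F e)) H := by
    rintro c ⟨h3, z, hz, V, u, w, hV, hu, hG0, hw⟩
    refine ⟨h3, V, u, z, w, hV, hu, hz, fun e => ?_, fun i => ?_⟩
    · rw [vl_mapc, comp_toL]
      exact hG0 e
    · rw [vl_mapc, comp_toL]
      exact hw i
  exact_mod_cast Set.ncard_le_ncard hsub hfin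

/-! ### scaling -/

lemma append_split {α : Type} {s n : ℕ} (u : Fin (s + n) → α) :
    u = Fin.append (fun l => u (Fin.castAdd n l)) (fun k => u (Fin.natAdd s k)) := by
  funext l
  refine Fin.addCases (fun l => ?_) (fun k => ?_) l
  · rw [Fin.append_left]
  · rw [Fin.append_right]

omit [NumberField L] [Algebra K L] [NumberField K] [Field K] [Field L] in
lemma spc_scaleT_zero {O : Type} [CommRing O] (φ : O →+* ℂ) {r s n : ℕ}
    (F : Pol O r s n) (V : Fin r → Fin 3 → ℂ) (u : Fin s → ℂ) (z : Fin n → ℂ)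
    (hz : ∀ k, z k ≠ 0) (h : spc φ F V u ≠ 0) : spc φ (scaleT F) V (Fin.append u z) ≠ 0 := by
  intro hg
  rw [spc_scaleT] at hg
  apply h
  have h1 : (aeval (fun k => (C (z k)⁻¹ * X k : MvPolynomial (Fin n) ℂ)) :
      MvPolynomial (Fin n) ℂ →ₐ[ℂ] MvPolynomial (Fin n) ℂ).comp
      (aeval (fun k => (C (z k) * X k : MvPolynomial (Fin n) ℂ))) = AlgHom.id ℂ _ := by
    apply MvPolynomial.algHom_ext
    intro k
    simp only [AlgHom.comp_apply, aeval_X, map_mul, AlgHom.id_apply]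
    rw [← algebraMap_eq, AlgHom.commutes, algebraMap_eq, ← mul_assoc, ← C_mul,
      mul_inv_cancel₀ (hz k), C_1, one_mul]
  have h2 := congrArg (fun f => f (spc φ F V u)) h1
  simp only [AlgHom.comp_apply, AlgHom.id_apply] at h2
  rw [← h2, hg, map_zero]

/-- the exponents of the last coordinates -/
noncomputable def xpart {r s n : ℕ} (m : (Fin r × Fin 3) ⊕ (Fin s ⊕ Fin n) →₀ ℕ) : Fin n →₀ ℕ :=
  Finsupp.equivFunOnFinite.symm fun i => m (Sum.inr (Sum.inr i))

open Classical in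
/-- the exponents of the last coordinates that occur -/
noncomputable def xexp {O : Type} [CommRing O] {r s n q : ℕ} (G : Fin q → Pol O r s n) :
    Finset (Fin n →₀ ℕ) := Finset.univ.biUnion fun e => (G e).support.image xpart

omit [NumberField L] [Algebra K L] [NumberField K] [Field K] [Field L] in
lemma xsupp_xexp {O O' : Type} [CommRing O] [CommRing O'] (ψ : O →+* O') {r s n q : ℕ}
    (G : Fin q → Pol O r s n) (e : Fin q) : XSupp (scaleT (MvPolynomial.map ψ (G e))) (xexp G) := by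
  classical
  intro m hm
  unfold scaleT at hm
  have h1 := support_sum hm
  rw [Finset.mem_biUnion] at h1
  obtain ⟨m', hm', hem⟩ := h1
  have h2 := support_monomial_subset hem
  rw [Finset.mem_singleton] at h2
  refine ⟨xpart m', ?_, fun i => ?_⟩
  · unfold xexp
    rw [Finset.mem_biUnion]
    exact ⟨e, Finset.mem_univ _, Finset.mem_image_of_mem _ (support_map_subset _ _ hm')⟩
  · rw [h2]
    rfl

omit [NumberField L] [Algebra K L] [NumberField K] [Field K] [Field L] in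
lemma degree_xpart {r s n : ℕ} (m : (Fin r × Fin 3) ⊕ (Fin s ⊕ Fin n) →₀ ℕ) :
    (xpart m).sum (fun _ e => e) ≤ m.sum (fun _ e => e) := by
  rw [Finsupp.sum_fintype _ _ (fun _ => rfl), Finsupp.sum_fintype _ _ (fun _ => rfl),
    Fintype.sum_sum_type, Fintype.sum_sum_type]
  have : ∑ i, xpart m i = ∑ i, m (Sum.inr (Sum.inr i)) := rfl
  rw [this]
  omega

/-- **Part 2.** -/
theorem part2 {r s n q q' k : ℕ} {a b : Fin r → ℤ}
    (hab : ∀ i, a i * b i = 0 ∧ (a i ≠ 0 ∨ b i ≠ 0))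
    {G : Fin q → Pol (𝓞 K) r s (n + 1)} {d' : Fin q → Fin r → ℕ} (hG : ∀ e, MHomog (G e) (d' e))
    (hk : ∀ e, (G e).totalDegree ≤ k)
    {G' : Fin q' → Pol (𝓞 K) r s (n + 1)} {σ : K →+* ℂ}
    (hE : EntireIn (m := 0) σ a b G Fin.elim0 G')
    (hV' : ∀ (V : Fin r → Fin 3 → ℂ) (u : Fin s → ℂ), (∀ i, FD.OnE (a i) (b i) (V i)) →
      (∀ l, u l ≠ 0) → ∃ l, spc (toC σ) (G' l) V u ≠ 0)
    {S : Set (HeightOneSpectrum (𝓞 L))} (hS : S.Finite) {N : ℕ}
    (ω : Module.Basis (Fin N) ℤ (𝓞 L)) :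
    ∃ τ : ℝ, 0 < τ ∧ τ < 1 ∧ ∃ H₀ : ℕ, 3 ≤ H₀ ∧ ∀ H : ℕ, H₀ ≤ H →
      ∃ Z : Finset (MvPolynomial (Fin (n + 1)) L), (Z.card : ℝ) ≤ Real.exp ((Real.log H) ^ τ) ∧
        (∀ f ∈ Z, f ≠ 0 ∧ f.totalDegree ≤ k) ∧
        ∀ c ∈ Below (m := 0) K S ω a b G Fin.elim0 H, ∃ f ∈ Z,
          eval (fun i => ((vec ω c i : 𝓞 L) : L)) f = 0 := by
  classical
  obtain ⟨σ', hσ'⟩ := exists_ext (L := L) σ
  obtain ⟨τ, hτ0, hτ1, H₀, hH3, h⟩ := hs L N ω r (s + (n + 1)) a b hab (S.unit L)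
    (Pool.Agent.H39R3.Tor.sunit_fg L S hS) 1 (fun _ => n + 1) q
    (fun _ e => scaleT (MvPolynomial.map (algebraMap (𝓞 K) (𝓞 L)) (G e))) (fun _ => d')
    (fun _ => xexp G) (fun _ e => scaleT_homog _ _ ((hG e).map _))
    (fun _ e => xsupp_xexp _ G e) σ' (by
      intro V u hV hu _
      rcases cond hE hV' V (fun l => u (Fin.castAdd (n + 1) l)) hV (fun l => hu _) with
        ⟨e, he⟩ | ⟨e, he⟩
      · refine ⟨e, ?_⟩
        rw [append_split u]
        refine spc_scaleT_zero _ _ V _ _ (fun k => hu _) ?_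
        rw [spc_mapc, comp_toC hσ']
        exact he
      · exact e.elim0)
  refine ⟨τ, hτ0, hτ1, H₀, hH3, fun H hH => ?_⟩
  obtain ⟨FF, hFF, hcov1, hcov2⟩ := h H hH
  refine ⟨FF.image fun f => f 0, ?_, ?_, ?_⟩
  · refine le_trans ?_ hFF
    exact_mod_cast Finset.card_image_le
  · intro f hf
    rw [Finset.mem_image] at hf
    obtain ⟨f', hf', rfl⟩ := hf
    obtain ⟨h1, h2⟩ := hcov1 f' hf' 0
    refine ⟨h1, ?_⟩
    unfold totalDegree
    refine Finset.sup_le fun m hm => ?_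
    have h3 := h2 hm
    unfold xexp at h3
    obtain ⟨e, -, h4⟩ := Finset.mem_biUnion.1 h3
    obtain ⟨m', hm', rfl⟩ := Finset.mem_image.1 h4
    exact (degree_xpart m').trans ((le_totalDegree hm').trans (hk e))
  · rintro c ⟨hc, z, hz, V, u, w, hV, hu, hG0, -⟩
    obtain ⟨f, hf, hf0⟩ := hcov2 (fun _ => c) ⟨fun _ => hc, V, Fin.append u z, hV, fun l => by
      refine Fin.addCases (fun l => ?_) (fun k => ?_) l
      · rw [Fin.append_left]
        exact hu l
      · rw [Fin.append_right]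
        exact hz k, fun _ e => by
      have h1 : (fun l => ((Fin.append u z l : Lˣ) : L)) =
          Fin.append (fun l => ((u l : Lˣ) : L)) (fun k => ((z k : Lˣ) : L)) := by
        funext l
        refine Fin.addCases (fun l => ?_) (fun k => ?_) l
        · rw [Fin.append_left, Fin.append_left]
        · rw [Fin.append_right, Fin.append_right]
      rw [h1, vl_scaleT, vl_mapc, comp_toL]
      exact hG0 e⟩
    exact ⟨f 0, Finset.mem_image_of_mem _ hf, hf0 0⟩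

end int

end Pool.Agent.Y696.BL
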