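import Pool.Agent.Y696.BL.Core

/-!
# Integral points on quasi-finite schemes over a split semiabelian variety
-/

set_option autoImplicit false

namespace Pool.Agent.Y696.BL

open MvPolynomial NumberField IsDedekindDomain Pool.Agent.H901R3.MS Pool.Agent.W659 Pool.Agent.W659.SA

section pol

variable {O : Type} [CommRing O] {r s n q : ℕ}

/-- a polynomial in `x_1, …, x_n` as a polynomial in `x_0, …, x_n` -/
noncomputable def up1 (F : Pol O r s n) : Pol O r s (n + 1) :=
  rename (Sum.map id (Sum.map id Fin.succ)) F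

lemma up1_homog {F : Pol O r s n} {d : Fin r → ℕ} (h : MHomog F d) : MHomog (up1 F) d := by
  classical
  intro m hm i
  unfold up1 at hm
  have hinj : Function.Injective (Sum.map id (Sum.map id Fin.succ) :
      ((Fin r × Fin 3) ⊕ (Fin s ⊕ Fin n)) → ((Fin r × Fin 3) ⊕ (Fin s ⊕ Fin (n + 1)))) :=
    Function.Injective.sumMap Function.injective_id
      (Function.Injective.sumMap Function.injective_id (Fin.succ_injective n))
  rw [support_rename_of_injective hinj, Finset.mem_image] at hm
  obtain ⟨m', hm', rfl⟩ := hm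
  rw [← h m' hm' i]
  refine Finset.sum_congr rfl fun j _ => ?_
  exact Finsupp.mapDomain_apply hinj m' (Sum.inl (i, j))

lemma vl_up1 {k : Type} [CommRing k] (φ : O →+* k) (F : Pol O r s n) (V : Fin r → Fin 3 → k)
    (u : Fin s → k) (x : Fin (n + 1) → k) :
    vl φ (up1 F) V u x = vl φ F V u (fun i => x i.succ) := by
  unfold vl up1
  rw [eval₂_rename]
  congr 1
  funext y
  rcases y with ij | l | k <;> rfl

variable (O r s n) in
/-- the polynomial `x_0 - 1` -/
noncomputable def one0 : Pol O r s (n + 1) := X (Sum.inr (Sum.inr 0)) - 1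

lemma one0_homog : MHomog (one0 O r s n) (fun _ => 0) := by
  classical
  intro m hm i
  unfold one0 at hm
  have h1 := support_sub _ _ _ hm
  rcases Finset.mem_union.1 h1 with h | h
  · have h2 := support_monomial_subset h
    rw [Finset.mem_singleton] at h2
    rw [h2]
    simp
  · have h2 := support_monomial_subset (s := (0 : _ →₀ ℕ)) (a := (1 : O)) h
    rw [Finset.mem_singleton] at h2
    rw [h2]
    simp

lemma vl_one0 {k : Type} [CommRing k] (φ : O →+* k) (V : Fin r → Fin 3 → k)
    (u : Fin s → k) (x : Fin (n + 1) → k) : vl φ (one0 O r s n) V u x = x 0 - 1 := by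
  unfold vl one0
  rw [eval₂_sub, eval₂_X, eval₂_one]
  rfl

/-- the family with the additional equation `x_0 = 1` -/
noncomputable def fam (G : Fin q → Pol O r s n) : Fin (q + 1) → Pol O r s (n + 1) :=
  Fin.cons (one0 O r s n) (fun e => up1 (G e))

lemma fam_homog {G : Fin q → Pol O r s n} {d : Fin q → Fin r → ℕ} (hG : ∀ e, MHomog (G e) (d e))
    (e : Fin (q + 1)) : MHomog (fam G e) ((Fin.cons (fun _ => 0) d : Fin (q + 1) → Fin r → ℕ) e) := by
  refine Fin.cases ?_ (fun e => ?_) e
  · exact one0_homog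
  · exact up1_homog (hG e)

lemma atMost_fam (φ : O →+* ℂ) (G : Fin q → Pol O r s n) {D : ℕ} (V : Fin r → Fin 3 → ℂ)
    (u : Fin (s + (n + 1)) → ℂ) (hu : ∀ l, u l ≠ 0)
    (hfib : ∃ T : Finset (Fin n → ℂ), T.card ≤ D ∧
      ∀ x, (∀ e, vl φ (G e) V (fun l => u (Fin.castAdd (n + 1) l)) x = 0) → x ∈ T) :
    AtMost φ (fun e => scaleT (fam G e)) V u D := by
  classical
  intro x _ hx
  obtain ⟨T, hT, hTx⟩ := hfib
  have hval : ∀ l e, vl φ (fam G e) V (fun l => u (Fin.castAdd (n + 1) l))
      (fun k => u (Fin.natAdd s k) * x l k) = 0 := by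
    intro l e
    rw [← vl_scaleT, ← append_split u]
    exact hx l e
  have h0 : ∀ l, u (Fin.natAdd s 0) * x l 0 = 1 := by
    intro l
    have h1 := hval l 0
    unfold fam at h1
    rw [Fin.cons_zero, vl_one0] at h1
    exact sub_eq_zero.1 h1
  have hT' : ∀ l, (fun k : Fin n => u (Fin.natAdd s k.succ) * x l k.succ) ∈ T := by
    intro l
    apply hTx
    intro e
    have h1 := hval l e.succ
    unfold fam at h1
    rw [Fin.cons_succ, vl_up1] at h1
    exact h1
  obtain ⟨l, -, l', -, hne, heq⟩ := Finset.exists_ne_map_eq_of_card_lt_of_maps_to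
    (s := (Finset.univ : Finset (Fin (D + 1)))) (t := T) (by
      rw [Finset.card_univ, Fintype.card_fin]
      omega) (f := fun l => (fun k : Fin n => u (Fin.natAdd s k.succ) * x l k.succ))
    (fun l _ => hT' l)
  refine ⟨l, l', hne, 1, ?_⟩
  rw [one_smul]
  funext k
  refine Fin.cases ?_ (fun k => ?_) k
  · exact mul_left_cancel₀ (hu _) ((h0 l).trans (h0 l').symm)
  · exact mul_left_cancel₀ (hu _) (congrFun heq k)

end pol

section int

variable {K : Type} [Field K] [NumberField K] {L : Type} [Field L] [NumberField L] [Algebra K L]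

omit [Algebra K L] [NumberField K] [Field K] in
/-- the coefficient vector of `(1, x)` -/
noncomputable def ext1 {N n : ℕ} (ω : Module.Basis (Fin N) ℤ (𝓞 L)) (c : Fin n × Fin N → ℤ) :
    Fin (n + 1) × Fin N → ℤ := fun p =>
  (Fin.cons (fun j => ω.repr 1 j) (fun k j => c (k, j)) : Fin (n + 1) → Fin N → ℤ) p.1 p.2

omit [Algebra K L] [NumberField K] [Field K] in
lemma vec_ext1_zero {N n : ℕ} (ω : Module.Basis (Fin N) ℤ (𝓞 L)) (c : Fin n × Fin N → ℤ) :
    vec ω (ext1 ω c) 0 = 1 := by
  unfold vec ext1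
  simp only [Fin.cons_zero]
  exact ω.sum_repr 1

omit [Algebra K L] [NumberField K] [Field K] in
lemma vec_ext1_succ {N n : ℕ} (ω : Module.Basis (Fin N) ℤ (𝓞 L)) (c : Fin n × Fin N → ℤ)
    (k : Fin n) : vec ω (ext1 ω c) k.succ = vec ω c k := by
  unfold vec ext1
  simp only [Fin.cons_succ]

omit [Algebra K L] [NumberField K] [Field K] in
lemma vec_inj {N n : ℕ} (ω : Module.Basis (Fin N) ℤ (𝓞 L)) {c c' : Fin n × Fin N → ℤ}
    (h : ∀ k, vec ω c k = vec ω c' k) : c = c' := by
  funext p
  obtain ⟨k, j⟩ := p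
  have h1 : ∀ c : Fin n × Fin N → ℤ, ω.repr (vec ω c k) j = c (k, j) := by
    intro c
    unfold vec
    have := ω.repr_sum_self (fun j => c (k, j))
    exact congrFun this j
  rw [← h1 c, ← h1 c', h k]

/-- **Part 3.** -/
theorem part3 {r s n q D : ℕ} {a b : Fin r → ℤ}
    (hab : ∀ i, a i * b i = 0 ∧ (a i ≠ 0 ∨ b i ≠ 0))
    {G : Fin q → Pol (𝓞 K) r s n} {d' : Fin q → Fin r → ℕ} (hG : ∀ e, MHomog (G e) (d' e))
    {σ : K →+* ℂ}
    (hfib : ∀ (V : Fin r → Fin 3 → ℂ) (u : Fin s → ℂ), (∀ i, FD.OnE (a i) (b i) (V i)) →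
      (∀ l, u l ≠ 0) → ∃ T : Finset (Fin n → ℂ), T.card ≤ D ∧
        ∀ x, (∀ e, vl (toC σ) (G e) V u x = 0) → x ∈ T)
    {S : Set (HeightOneSpectrum (𝓞 L))} (hS : S.Finite) {N : ℕ}
    (ω : Module.Basis (Fin N) ℤ (𝓞 L)) :
    ∃ τ : ℝ, 0 < τ ∧ τ < 1 ∧ ∃ H₀ : ℕ, 3 ≤ H₀ ∧ ∀ H : ℕ, H₀ ≤ H →
      (((Below (m := 0) K S ω a b G Fin.elim0 H).ncard : ℕ) : ℝ) ≤
        D * Real.exp ((Real.log H) ^ τ) := by
  classical
  obtain ⟨σ', hσ'⟩ := exists_ext (L := L) σ
  set GLx : Fin q → Pol (𝓞 L) r s n :=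
    fun e => MvPolynomial.map (algebraMap (𝓞 K) (𝓞 L)) (G e) with hGL
  have hGLh : ∀ e, MHomog (GLx e) (d' e) := fun e => (hG e).map _
  obtain ⟨τ, hτ0, hτ1, H₀, hH3, h⟩ := hf L N ω r (s + (n + 1)) a b hab (S.unit L)
    (Pool.Agent.H39R3.Tor.sunit_fg L S hS) (n + 1) (q + 1) (fun e => scaleT (fam GLx e))
    (Fin.cons (fun _ => 0) d') (fun e => scaleT_homog _ _ (fam_homog hGLh e)) σ' D (by
      intro V u hV hu
      refine atMost_fam _ GLx V u hu ?_
      obtain ⟨T, hT, hTx⟩ := hfib V (fun l => u (Fin.castAdd (n + 1) l)) hV (fun l => hu _)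
      refine ⟨T, hT, fun x hx => hTx x fun e => ?_⟩
      have h1 := hx e
      rw [hGL, vl_mapc, comp_toC hσ'] at h1
      exact h1)
  refine ⟨τ, hτ0, hτ1, max H₀ (∑ j, (ω.repr 1 j).natAbs), le_trans hH3 (le_max_left _ _),
    fun H hH => ?_⟩
  have hH0 : H₀ ≤ H := (le_max_left _ _).trans hH
  have hH1 : ∑ j, (ω.repr 1 j).natAbs ≤ H := (le_max_right _ _).trans hH
  obtain ⟨Z, hZ, hcov⟩ := h H hH0
  refine le_trans ?_ hZ
  have hfin : (Below (m := 0) K S ω a b G Fin.elim0 H).Finite :=
    below_finite (H := H) fun c hc => hc.1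
  rw [Set.ncard_eq_toFinset_card _ hfin]
  have key : hfin.toFinset.card ≤ Z.card := by
    refine Finset.card_le_card_of_forall_subsingleton
      (fun c y => ∃ t : L, (fun i => ((vec ω (ext1 ω c) i : 𝓞 L) : L)) = t • y) ?_ ?_
    · intro c hc
      rw [Set.Finite.mem_toFinset] at hc
      obtain ⟨hc, z, hz, V, u, w, hV, hu, hG0, -⟩ := hc
      refine hcov (ext1 ω c) ⟨?_, ⟨0, ?_⟩, V,
        Fin.append u (Fin.cons (α := fun _ => Lˣ) 1 z), hV, ?_, ?_⟩
      · rintro ⟨k, j⟩
        refine Fin.cases ?_ (fun k => ?_) k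
        · show |ω.repr 1 j| ≤ H
          have h1 : (ω.repr 1 j).natAbs ≤ ∑ j, (ω.repr 1 j).natAbs :=
            Finset.single_le_sum (f := fun j => (ω.repr 1 j).natAbs) (fun _ _ => Nat.zero_le _)
              (Finset.mem_univ j)
          have h2 : |ω.repr 1 j| = ((ω.repr 1 j).natAbs : ℤ) := (Int.natCast_natAbs _).symm
          rw [h2]
          exact_mod_cast h1.trans hH1
        · exact hc (k, j)
      · rw [vec_ext1_zero]
        exact one_ne_zero
      · intro l
        refine Fin.addCases (fun l => ?_) (fun k => ?_) l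
        · rw [Fin.append_left]
          exact hu l
        · rw [Fin.append_right]
          refine Fin.cases ?_ (fun k => ?_) k
          · exact Subgroup.one_mem _
          · exact hz k
      · intro e
        have h1 : (fun l => ((Fin.append u (Fin.cons (α := fun _ => Lˣ) 1 z) l : Lˣ) : L)) =
            Fin.append (fun l => ((u l : Lˣ) : L))
              (fun k => ((Fin.cons (α := fun _ => Lˣ) 1 z k : Lˣ) : L)) := by
          funext l
          refine Fin.addCases (fun l => ?_) (fun k => ?_) l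
          · rw [Fin.append_left, Fin.append_left]
          · rw [Fin.append_right, Fin.append_right]
        rw [h1, vl_scaleT]
        refine Fin.cases ?_ (fun e => ?_) e
        · unfold fam
          rw [Fin.cons_zero, vl_one0, vec_ext1_zero]
          simp
        · unfold fam
          rw [Fin.cons_succ, vl_up1, hGL, vl_mapc, comp_toL]
          simp only [Fin.cons_succ, vec_ext1_succ]
          exact hG0 e
    · intro y _ c hc c' hc'
      obtain ⟨-, t, ht⟩ := hc
      obtain ⟨-, t', ht'⟩ := hc'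
      have h0 := congrFun ht 0
      have h0' := congrFun ht' 0
      rw [vec_ext1_zero] at h0 h0'
      simp only [Pi.smul_apply, smul_eq_mul] at h0 h0'
      have hy : y 0 ≠ 0 := by
        intro h
        rw [h, mul_zero] at h0
        simp at h0
      have htt : t = t' := mul_right_cancel₀ hy (h0.symm.trans h0')
      apply vec_inj ω
      intro k
      have h1 := congrFun ht k.succ
      have h1' := congrFun ht' k.succ
      rw [vec_ext1_succ] at h1 h1'
      rw [← htt] at h1'
      have h2 := h1.trans h1'.symm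
      exact_mod_cast h2
  exact_mod_cast key

end int

end Pool.Agent.Y696.BL
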